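import Pool.Agent.Lib.MP_754a42_al.Ker
import Pool.Agent.Lib.MP_754a42_al.E1

/-!
# MP_754a42_al: the common kernel of all representations of a Malcev algebra (characteristic 0).

Let `A` be a finite-dimensional Malcev algebra over a field `F` of characteristic `0`.  Put
`L̂ = A × (A ⊗ A)` with the bracket `[(a,s),(b,t)] = (-ab + D_s b - D_t a, a ⊗ b + D_s t)`.
Let `(rad, radQ)` be the smallest closed pair of subspaces of `L̂` and `L̂ ⊗ L̂` (see `Closed`), and
`K(A) = {a | (a,0) ∈ rad}` (see `KA`).  Every representation of `A` (of any dimension) kills `K(A)`, and there is a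
representation whose kernel is exactly `K(A)`.  So `A` has a faithful representation if and only if `K(A) = 0`.
`K(A)` is contained in the centre of `A`.  The smallest closed pair is computed by finitely many steps of linear
algebra in `A`.
-/

open scoped TensorProduct

namespace Pool.Agent.Results.MP_754a42_al.ExactKernel

open Pool.Agent.MP_754a42_al

universe u w

theorem result {F A : Type u} [Field F] [CharZero F] [AddCommGroup A] [Module F A]
    [FiniteDimensional F A] (mul : A →ₗ[F] A →ₗ[F] A) (hA : IsMalcev mul) :
    -- every representation (in any universe) kills `K(A)`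
    (∀ (V : Type w) [AddCommGroup V] [Module F V] (ρ : A →ₗ[F] Module.End F V),
        IsRep mul ρ → KA mul ≤ LinearMap.ker ρ) ∧
    -- some representation has kernel `K(A)`
    (∃ (V : Type u) (_ : AddCommGroup V) (_ : Module F V) (ρ : A →ₗ[F] Module.End F V),
        IsRep mul ρ ∧ LinearMap.ker ρ = KA mul) ∧
    -- there is a faithful representation if and only if `K(A) = 0`
    ((∃ (V : Type u) (_ : AddCommGroup V) (_ : Module F V) (ρ : A →ₗ[F] Module.End F V),
        IsRep mul ρ ∧ Function.Injective ρ) ↔ KA mul = ⊥) ∧
    -- `K(A)` is contained in the centre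
    (∀ a ∈ KA mul, ∀ b : A, mul a b = 0) ∧
    -- `(rad, radQ)` is the smallest closed pair and `rad` is reached after finitely many steps
    (Closed mul (rad mul) (radQ mul) ∧
      (chain mul (Module.finrank F (LH F A) + Module.finrank F (LH F A ⊗[F] LH F A))).1
        = rad mul) := by
  refine ⟨fun V _ _ ρ hρ a ha => rep_kills hA hρ ha, exists_kernel hA, ⟨?_, ?_⟩,
    fun a ha b => KA_central hA ha b, closed_rad mul, chain_eq_rad mul⟩
  · rintro ⟨V, _, _, ρ, hρ, hi⟩
    rw [eq_bot_iff]
    intro a ha
    have h1 : ρ a = 0 := rep_kills hA hρ ha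
    exact (Submodule.mem_bot F).2 (hi (by rw [h1, map_zero]))
  · intro h0
    obtain ⟨V, i1, i2, ρ, hρ, hk⟩ := exists_kernel hA
    exact ⟨V, i1, i2, ρ, hρ, LinearMap.ker_eq_bot.1 (hk.trans h0)⟩

end Pool.Agent.Results.MP_754a42_al.ExactKernel
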